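import Mathlib
import Pool.Agent.Y156.L.Props
import Pool.Agent.Y1.CT.UnrelDefs

/-!
# Theories relative to a scheme that is unrelated to given CM fields: definitions

`AbelianData`, `RelData`, `Regulator`, `CupProduct` and their properties are the ones of
`Pool/Agent/Y156/L/Defs.lean` and `Pool/Agent/Y156/L/Props.lean`.
-/

set_option autoImplicit false

namespace Pool.Agent.E8helper65.RT

open Polynomial Pool.Agent.Y156.L Pool.Agent.Y1.CT

section

variable {F : Type} [Field F] {A : AbelianData F} (Q : ℕ) (T : RelData A)

/-- The Frobenius endomorphism of `U` satisfies, on the elements of `H^i(A × U, j)` considered in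
`InvM`, for all `i` and `j`, a nonzero rational polynomial all of whose complex roots have the
property `R`. -/
def FrobeniusIn (R : ℂ → Prop) : Prop :=
  ∀ i j : ℤ, ∃ χ : ℚ[X], χ ≠ 0 ∧ (∀ ρ : ℂ, aeval ρ χ = 0 → R ρ) ∧
    ∀ m, T.InvM Q i j m → aeval T.frobM χ m = 0

/-- The Frobenius endomorphism of `U` satisfies, on the elements of `H^i(A × U, j)` considered in
`InvM`, for all `i` and `j`, a nonzero rational polynomial all of whose complex roots are unrelated to
the fields `K i` (in `ℓ`-adic cohomology: the Frobenius eigenvalues of `U` and their conjugates are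
unrelated to the fields `K i`). -/
def IsUnrelated {I : Type} (K : I → Type) [∀ i, Field (K i)] : Prop :=
  FrobeniusIn Q T (Unrelated K)

end

/-- `TateTimes R q f`: for every abelian variety `A` as in `IsAbelian` there are finitely many
products `D t` of divisor classes on `A`, such that for all `V` (cohomology) relative to any scheme
`U`, with the formal properties and with Frobenius eigenvalues in `R`: the Kunneth formula holds,
and for all `T` (motivic cohomology) relative to `U` with a regulator to `V`, and all `i`, `j`, the
regulator of `A × U` in bidegree `(i, j)` is onto the Frobenius invariants if and only if those of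
`U` in the bidegrees `(i - 2 k, j - k)`, `0 ≤ k ≤ dim A`, are. -/
def TateTimes (R : ℂ → Prop) (q : ℕ) {I : Type} (f : I → ℤ[X]) : Prop :=
  ∀ (F : Type) [Field F] [CharZero F] (A : AbelianData F) (s : ℕ), IsAbelian A q s f →
    ∃ (J : Type) (_ : Fintype J) (c : J → ℕ) (D : J → A.CH), IsFamily A c D ∧
      ∀ V : RelData A, IsRel (q ^ s) V → FrobeniusIn (q ^ s) V R → V.Kunneth (q ^ s) c D ∧
        ∀ (T : RelData A) (ρ : Regulator T V), IsRel (q ^ s) T → IsRegulator ρ →
          ∀ i j : ℤ, OntoM ρ (q ^ s) i j ↔
            ∀ k : ℕ, k ≤ A.dim → OntoN ρ (q ^ s) (i - 2 * k) (j - k)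

/-- `BeilinsonTimes R q f`: for every abelian variety `A` as in `IsAbelian` there are
finitely many products `D t` of divisor classes on `A`, such that for all `T` (motivic cohomology)
relative to any scheme `U`, with the formal properties, pure, and such that the Frobenius
endomorphism of `U` satisfies polynomials with roots in `R`: the Kunneth formula holds, and for all `V`
(cohomology) relative to `U` with a regulator from `T` to `V`, and all `i`, `j`, the regulator of
`A × U` in bidegree `(i, j)` is injective if and only if those of `U` in the bidegrees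
`(i - 2 k, j - k)`, `0 ≤ k ≤ dim A`, are. -/
def BeilinsonTimes (R : ℂ → Prop) (q : ℕ) {I : Type} (f : I → ℤ[X]) : Prop :=
  ∀ (F : Type) [Field F] [CharZero F] (A : AbelianData F) (s : ℕ), IsAbelian A q s f →
    ∃ (J : Type) (_ : Fintype J) (c : J → ℕ) (D : J → A.CH), IsFamily A c D ∧
      ∀ T : RelData A, IsRel (q ^ s) T → T.IsPure (q ^ s) → FrobeniusIn (q ^ s) T R →
        T.Kunneth (q ^ s) c D ∧
        ∀ (V : RelData A) (ρ : Regulator T V), IsRel (q ^ s) V → IsRegulator ρ →
          ∀ i j : ℤ, InjectiveM ρ i j ↔ ∀ k : ℕ, k ≤ A.dim → InjectiveN ρ (i - 2 * k) (j - k)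

/-- `ParshinTimes R q f`: for every abelian variety `A` as in `IsAbelian` there are
finitely many products `D t` of divisor classes on `A`, such that for all `T` (motivic cohomology)
relative to any scheme `Z`, with the formal properties, pure, and such that the Frobenius
endomorphism of `Z` satisfies polynomials with roots in `R`: the Kunneth formula holds, and for all
`i`, `j` the group `H^i(A × Z, j)` is zero if and only if the groups `H^(i - 2 k)(Z, j - k)`,
`0 ≤ k ≤ dim A`, are zero. -/
def ParshinTimes (R : ℂ → Prop) (q : ℕ) {I : Type} (f : I → ℤ[X]) : Prop :=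
  ∀ (F : Type) [Field F] [CharZero F] (A : AbelianData F) (s : ℕ), IsAbelian A q s f →
    ∃ (J : Type) (_ : Fintype J) (c : J → ℕ) (D : J → A.CH), IsFamily A c D ∧
      ∀ T : RelData A, IsRel (q ^ s) T → T.IsPure (q ^ s) → FrobeniusIn (q ^ s) T R →
        T.Kunneth (q ^ s) c D ∧
        ∀ i j : ℤ, T.grM i j = ⊥ ↔ ∀ k : ℕ, k ≤ A.dim → T.grN (i - 2 * k) (j - k) = ⊥

end Pool.Agent.E8helper65.RT
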