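import Mathlib
import Pool.Agent.E8helper65.RT.Defs

/-!
# The statement `P^n` for products with abelian varieties: definitions
-/

set_option autoImplicit false

namespace Pool.Agent.E8helper65.RT

open Polynomial Pool.Agent.Y156.L Pool.Agent.Y1.CT

/-- Every element has finite order. -/
def IsTorsion (G : Type) [AddCommGroup G] : Prop := ∀ x : G, ∃ N : ℕ, 0 < N ∧ N • x = 0

/-- `G ⊗ ℚ` is the space `W`: there is a homomorphism from `G` to `W` whose kernel is torsion and
such that each element of `W` has a multiple in its image. -/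
def IsIntegralForm {V : Type} [AddCommGroup V] [Module ℚ V] (W : Submodule ℚ V) (G : Type)
    [AddCommGroup G] : Prop :=
  ∃ φ : G →+ V, (∀ x, φ x ∈ W) ∧ (∀ x, φ x = 0 → ∃ N : ℕ, 0 < N ∧ N • x = 0) ∧
    ∀ w ∈ W, ∃ N : ℕ, 0 < N ∧ ∃ x, φ x = N • w

/-- The statement `P^n` for a scheme with the motivic cohomology groups `G i n = H^i(X, ℤ(n))`: all
groups `H^i(X, ℤ(n))` with `i ≠ 2 n` are torsion groups. -/
def P (G : ℤ → ℤ → Type) [∀ i n, AddCommGroup (G i n)] (n : ℤ) : Prop :=
  ∀ i : ℤ, i ≠ 2 * n → IsTorsion (G i n)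

/-- `PnTimes R q f`: for every abelian variety `A` as in `IsAbelian` there are finitely many products
`D t` of `c t` divisor classes on `A`, with all numbers `0 ≤ c t ≤ dim A`, such that the following
holds for all `T` (rational motivic cohomology, with or without compact supports) relative to any
scheme `Z`, with the formal properties, such that Frobenius acts on `H^i(A × Z, ℚ(j))` as
multiplication by the `j`-th power of the number of elements of the ground field, and such that the
Frobenius endomorphism of `Z` satisfies polynomials with roots in `R`: the Kunneth formula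
`H^i(A × Z, ℚ(j)) = ⨁ D t × H^(i - 2 c t)(Z, ℚ(j - c t))` holds; the group `H^i(A × Z, ℚ(j))` is zero
if and only if the groups `H^(i - 2 k)(Z, ℚ(j - k))`, `0 ≤ k ≤ dim A`, are zero; and for the integral
groups `GM i j = H^i(A × Z, ℤ(j))` and `GN i j = H^i(Z, ℤ(j))` **the statement `P^n` holds for `A × Z`
if and only if the statements `P^(n - k)`, `0 ≤ k ≤ dim A`, hold for `Z`**. -/
def PnTimes (R : ℂ → Prop) (q : ℕ) {I : Type} (f : I → ℤ[X]) : Prop :=
  ∀ (F : Type) [Field F] [CharZero F] (A : AbelianData F) (s : ℕ), IsAbelian A q s f →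
    ∃ (J : Type) (_ : Fintype J) (c : J → ℕ) (D : J → A.CH), IsFamily A c D ∧
      ∀ T : RelData A, IsRel (q ^ s) T → T.IsPure (q ^ s) → FrobeniusIn (q ^ s) T R →
        T.Kunneth (q ^ s) c D ∧
        (∀ i j : ℤ, T.grM i j = ⊥ ↔ ∀ k : ℕ, k ≤ A.dim → T.grN (i - 2 * k) (j - k) = ⊥) ∧
        ∀ (GM GN : ℤ → ℤ → Type) [∀ i j, AddCommGroup (GM i j)] [∀ i j, AddCommGroup (GN i j)],
          (∀ i j, IsIntegralForm (T.grM i j) (GM i j)) →
          (∀ i j, IsIntegralForm (T.grN i j) (GN i j)) →
          ∀ n : ℤ, P GM n ↔ ∀ k : ℕ, k ≤ A.dim → P GN (n - k)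

end Pool.Agent.E8helper65.RT
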