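import Mathlib
import Pool.Agent.E8helper65.RT.PnDefs
import Pool.Agent.E8helper65.RT.Main
import Pool.Agent.Y1.TS.Main

/-!
# The statement `P^n` for products with abelian varieties: the proofs
-/

set_option autoImplicit false
set_option linter.unusedSectionVars false

namespace Pool.Agent.E8helper65.RT

open Module Polynomial NumberField IntermediateField Pool.Agent.Y156.L Pool.Agent.Y1.CT
  Pool.Agent.W484.HS Pool.Agent.H204R3.CM Pool.Agent.H977R3.CM
  Pool.Agent.TH170 Pool.Agent.TH170.FW Pool.Agent.Y1.KN Pool.Agent.Y137.MV Pool.Agent.Y1.TS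

theorem isTorsion_iff {V : Type} [AddCommGroup V] [Module ℚ V] {W : Submodule ℚ V} {G : Type}
    [AddCommGroup G] (h : IsIntegralForm W G) : IsTorsion G ↔ W = ⊥ := by
  obtain ⟨φ, h1, h2, h3⟩ := h
  constructor
  · intro h4
    rw [Submodule.eq_bot_iff]
    intro w hw
    obtain ⟨N, hN, x, hx⟩ := h3 w hw
    obtain ⟨m, hm, hmx⟩ := h4 x
    have h5 : (m * N) • w = 0 := by
      rw [mul_smul, ← hx, ← map_nsmul, hmx, map_zero]
    have h6 : ((m * N : ℕ) : ℚ) • w = 0 := by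
      rw [Nat.cast_smul_eq_nsmul]
      exact h5
    have h7 : ((m * N : ℕ) : ℚ) ≠ 0 := by
      exact_mod_cast (Nat.mul_pos hm hN).ne'
    exact (smul_eq_zero.1 h6).resolve_left h7
  · intro h4 x
    refine h2 x ?_
    have h5 := h1 x
    rw [h4] at h5
    exact (Submodule.mem_bot ℚ).1 h5

theorem p_iff {V : Type} [AddCommGroup V] [Module ℚ V] {W : ℤ → ℤ → Submodule ℚ V}
    {G : ℤ → ℤ → Type} [∀ i n, AddCommGroup (G i n)] (h : ∀ i j, IsIntegralForm (W i j) (G i j))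
    (n : ℤ) : P G n ↔ ∀ i : ℤ, i ≠ 2 * n → W i n = ⊥ :=
  forall_congr' fun i => forall_congr' fun _ => isTorsion_iff (h i n)

section

variable {I : Type} {q : ℕ} (hq : 1 < q) {f : I → ℤ[X]} {R : ℂ → Prop} (hR : NoRel f q R)

include hq hR in
theorem pnTimes (hR0 : ¬ R 0) : PnTimes R q f := by
  intro F _ _ A s hA
  obtain ⟨J, hJ, c, D, hF, h⟩ := parshinTimes hq hR hR0 F A s hA
  refine ⟨J, hJ, c, D, hF, fun T hT hpure hrank => ?_⟩
  obtain ⟨h1, h2⟩ := h T hT hpure hrank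
  refine ⟨h1, h2, fun GM GN _ _ hGM hGN n => ?_⟩
  rw [p_iff hGM n]
  have h3 : ∀ k : ℕ, P GN (n - k) ↔ ∀ i : ℤ, i ≠ 2 * (n - k) → T.grN i (n - k) = ⊥ :=
    fun k => p_iff hGN (n - k)
  constructor
  · intro h4 k hk
    rw [h3]
    intro i hi
    have h5 := (h2 (i + 2 * k) n).1 (h4 (i + 2 * k) (by omega)) k hk
    rwa [add_sub_cancel_right] at h5
  · intro h4 i hi
    rw [h2]
    intro k hk
    exact (h3 k).1 (h4 k hk) _ (by omega)

end

theorem unrelated_zero {I : Type} (K : I → Type) [∀ i, Field (K i)] : ¬ Unrelated K 0 :=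
  fun h => h.1 rfl

/-- No relations, from the angle rank. -/
theorem noRel_of_angle {p : ℕ} [Fact p.Prime] {a : ℕ} {I : Type} [Fintype I] {K : I → Type}
    [∀ i, Field (K i)] [∀ i, NumberField (K i)] [∀ i, IsCMField (K i)] {π : ∀ i, K i}
    (hang : MaximalAngleRank (p ^ a) π)
    (hw : ∀ i, π i * IsCMField.complexConj (K i) (π i) = (p : K i) ^ a) (f : I → ℤ[X])
    (hf : ∀ i, IsPolyOf (π i) (f i)) : NoRel f (p ^ a) (Unrelated K) :=
  ⟨fun i => (hf i).1, unrelated_one K, fun s hs ρ hρ => exactPair_of_angle hang hw f hf s hs ρ hρ⟩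

end Pool.Agent.E8helper65.RT
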