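import Mathlib
import Pool.Agent.E8helper65.RT.Defs

/-!
# The cycle class maps of arbitrary varieties times abelian varieties: definitions

For an arbitrary variety `U` (singular or open) we use the data `RelData` for the Borel-Moore homology
groups `H^i(U, j) := H_(- i)(U, ℚ(- j))` and
`H^i(A × U, j) := H_(2 dim A - i)(A × U, ℚ(dim A - j))`. The product with a cycle of codimension `c`
on `A` is a map `H_a(U, ℚ(b)) → H_(a + 2 (dim A - c))(A × U, ℚ(b + dim A - c))`.
-/

set_option autoImplicit false

namespace Pool.Agent.E8helper65.RT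

open Polynomial Pool.Agent.Y156.L Pool.Agent.Y1.CT

section

variable {F : Type} [Field F] {A : AbelianData F} {T V : RelData A}

/-- The cycle class map of `U` for cycles of dimension `b` is bijective onto the Frobenius
invariants: `H^i(U, j) = H_(2 b)(U, ℚ(b))` for `i = - 2 b` and `j = - b`. -/
def BijectiveOnU (ρ : Regulator T V) (Q : ℕ) (b : ℤ) : Prop :=
  OntoN ρ Q (-(2 * b)) (-b) ∧ InjectiveN ρ (-(2 * b)) (-b)

/-- The cycle class map of `A × U` for cycles of dimension `b` is bijective onto the Frobenius
invariants: `H^i(A × U, j) = H_(2 b)(A × U, ℚ(b))` for `i = 2 (dim A - b)` and `j = dim A - b`. -/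
def BijectiveOnAU (ρ : Regulator T V) (Q : ℕ) (b : ℤ) : Prop :=
  OntoM ρ Q (2 * (A.dim - b)) (A.dim - b) ∧ InjectiveM ρ (2 * (A.dim - b)) (A.dim - b)

end

/-- `IsoTimes R q f`: for every abelian variety `A` as in `IsAbelian` there are finitely many products
`D t` of `c t` divisor classes on `A`, with all numbers `0 ≤ c t ≤ dim A`, such that for all varieties
`U`, with the motivic homology `T` and the `ℓ`-adic homology `V` of `U` and `A × U` (Borel-Moore
homology groups, graded as above, with coefficients extended to `ℚ_ℓ`) and the cycle class maps `ρ`,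
such that the Frobenius endomorphism of `U` satisfies on `T` and `V` polynomials with roots in `R`:
the Kunneth formulas hold for `T` and (the Frobenius invariants in) `V`, and for all `b` **the cycle
class map of `A × U` for cycles of dimension `b` is bijective if and only if the ones of `U` for cycles
of dimension `b - l`, `0 ≤ l ≤ dim A`, are bijective.** -/
def IsoTimes (R : ℂ → Prop) (q : ℕ) {I : Type} (f : I → ℤ[X]) : Prop :=
  ∀ (F : Type) [Field F] [CharZero F] (A : AbelianData F) (s : ℕ), IsAbelian A q s f →
    ∃ (J : Type) (_ : Fintype J) (c : J → ℕ) (D : J → A.CH), IsFamily A c D ∧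
      ∀ (T V : RelData A) (ρ : Regulator T V), IsRel (q ^ s) T → IsRel (q ^ s) V →
        IsRegulator ρ → T.IsPure (q ^ s) → FrobeniusIn (q ^ s) T R → FrobeniusIn (q ^ s) V R →
        T.Kunneth (q ^ s) c D ∧ V.Kunneth (q ^ s) c D ∧
        ∀ b : ℤ, BijectiveOnAU ρ (q ^ s) b ↔
          ∀ l : ℕ, l ≤ A.dim → BijectiveOnU ρ (q ^ s) (b - l)

end Pool.Agent.E8helper65.RT
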