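import Mathlib
import Pool.Agent.E8helper65.RT.IsoDefs
import Pool.Agent.E8helper65.RT.Main

/-!
# The cycle class maps of arbitrary varieties times abelian varieties: the proofs
-/

set_option autoImplicit false
set_option linter.unusedSectionVars false

namespace Pool.Agent.E8helper65.RT

open Module Polynomial NumberField Pool.Agent.Y156.L Pool.Agent.Y1.CT Pool.Agent.W484.HS

theorem isoTimes {I : Type} {q : ℕ} (hq : 1 < q) {f : I → ℤ[X]} {R : ℂ → Prop}
    (hR : NoRel f q R) (hR0 : ¬ R 0) : IsoTimes R q f := by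
  intro F _ _ A s hA
  obtain ⟨J, hJ, c, D, E', hF, hdual, hQ, hmain⟩ := exists_classes hq hR hR0 hA
  refine ⟨J, hJ, c, D, hF, fun T V ρ hT hV hρ hpure hrT hrV => ?_⟩
  have hexpT := fun i j m hm => (hmain T hT hrT i j m hm).1
  have hexpV := fun i j m hm => (hmain V hV hrV i j m hm).1
  refine ⟨kunneth_of hQ hT hdual hexpT, kunneth_of hQ hV hdual hexpV, fun b => ?_⟩
  have h1 := tate_iff hF hdual hQ hT hV hρ hexpV (2 * (A.dim - b)) (A.dim - b)
  have h2 := beilinson_iff hF hdual hT hρ (fun i j m hm => hexpT i j m (hpure i j m hm))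
    (2 * (A.dim - b)) (A.dim - b)
  have e1 : ∀ k l : ℕ, k + l = A.dim → 2 * ((A.dim : ℤ) - b) - 2 * k = -(2 * (b - l)) := by
    intro k l h
    have : (k : ℤ) + l = A.dim := by exact_mod_cast h
    rw [← this]
    ring
  have e2 : ∀ k l : ℕ, k + l = A.dim → (A.dim : ℤ) - b - k = -(b - l) := by
    intro k l h
    have : (k : ℤ) + l = A.dim := by exact_mod_cast h
    rw [← this]
    ring
  unfold BijectiveOnAU BijectiveOnU
  rw [h1, h2]
  constructor
  · rintro ⟨h3, h4⟩ l hl
    have hk : (A.dim - l) + l = A.dim := Nat.sub_add_cancel hl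
    have h5 := h3 (A.dim - l) (Nat.sub_le _ _)
    have h6 := h4 (A.dim - l) (Nat.sub_le _ _)
    rw [e1 _ _ hk, e2 _ _ hk] at h5 h6
    exact ⟨h5, h6⟩
  · intro h3
    constructor
    · intro k hk
      have hk' : k + (A.dim - k) = A.dim := Nat.add_sub_cancel' hk
      rw [e1 _ _ hk', e2 _ _ hk']
      exact (h3 _ (Nat.sub_le _ _)).1
    · intro k hk
      have hk' : k + (A.dim - k) = A.dim := Nat.add_sub_cancel' hk
      rw [e1 _ _ hk', e2 _ _ hk']
      exact (h3 _ (Nat.sub_le _ _)).2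

end Pool.Agent.E8helper65.RT
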